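import Pool.Agent.Helper2.SV.GoalsC

/-!
# Project SV, packet CH
-/

set_option autoImplicit false

namespace Pool.Agent.Helper37.SV

open Pool.Agent.Helper2.SV

theorem goalCH : G_CH := by
  classical
  intro V _ G w u d hclaw hMF _hW hWF hne
  have huV0 : u ∉ V0 G u d := fun h => h.1.1 rfl
  have hne_univ : V0 G u d ≠ Set.univ := fun h => huV0 (h ▸ Set.mem_univ u)
  have hdisj : ∀ m i, m ∈ EE G u d i → m ∉ V0 G u d := by
    intro m i hm hm0
    exact hm0.2 i ((hm.1.2 i).2 (Or.inl rfl))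
  have h0 : ∃ i, (EE G u d i).Nonempty := by
    obtain ⟨y, hy, x, hx, hyx⟩ := hMF.conn (V0 G u d) hne hne_univ
    rcases hWF.v0E y hy x hyx with h | ⟨i, hi⟩
    · exact absurd h hx
    · exact ⟨i, x, hi⟩
  refine ⟨h0, fun hcomp => ?_⟩
  set E : Set V := {m | ∃ i, m ∈ EE G u d i} with hE
  set Y0 : Set V := {y | y ∈ V0 G u d ∧ ∃ m ∈ E, G.Adj y m} with hY0
  have hYE : ∀ y ∈ Y0, ∀ g ∈ E, G.Adj y g := by
    rintro y ⟨hy, m, ⟨i, hm⟩, hym⟩ g ⟨j, hg⟩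
    exact hcomp y hy i m hm hym j g hg
  have hYclq : Clq G Y0 := by
    rintro y hy y' hy' hne'
    obtain ⟨hy0, m, ⟨i, hm⟩, hym⟩ := hy
    have hy'm : G.Adj y' m := hYE y' hy' m ⟨i, hm⟩
    exact hWF.v0C i m hm.1 y hy0 y' hy'.1 hym hy'm hne'
  have hnotclq : ¬ Clq G E := by
    intro hEclq
    refine hMF.join (V0 G u d) Y0 E hne hne_univ (fun y hy => hy.1) ?_ ?_ ?_
    · rintro x ⟨i, hx⟩
      exact hdisj x i hx
    · rintro x (hx | hx) y (hy | hy) hxy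
      · exact hYclq x hx y hy hxy
      · exact hYE x hx y hy
      · exact (hYE y hy x hx).symm
      · exact hEclq x hx y hy hxy
    · intro x hx y hy hxy
      rcases hWF.v0E x hx y hxy with h | h
      · exact absurd h hy
      · exact ⟨⟨hx, y, h, hxy⟩, h⟩
  have hpair : ∃ g ∈ E, ∃ g' ∈ E, g ≠ g' ∧ ¬ G.Adj g g' := by
    by_contra hcon
    push Not at hcon
    exact hnotclq (fun x hx y hy hxy => hcon x hx y hy hxy)
  obtain ⟨g, hg, g', hg', hgg', hnadj⟩ := hpair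
  have hEV0 : ∀ m ∈ E, m ∉ V0 G u d := by
    rintro m ⟨i, hm⟩
    exact hdisj m i hm
  have hall : ∀ y ∈ V0 G u d, y ∈ Y0 := by
    by_contra hcon
    push Not at hcon
    obtain ⟨y1, hy1, hy1'⟩ := hcon
    obtain ⟨x, hx, z, hz, hxz⟩ := hMF.conn {y | y ∈ V0 G u d ∧ y ∉ Y0} ⟨y1, hy1, hy1'⟩
      (fun h => huV0 (show u ∈ {y | y ∈ V0 G u d ∧ y ∉ Y0} from h ▸ Set.mem_univ u).1)
    have hzE : z ∉ E := fun h => hx.2 ⟨hx.1, z, h, hxz⟩
    have hzV0 : z ∈ V0 G u d := by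
      rcases hWF.v0E x hx.1 z hxz with h | h
      · exact h
      · exact absurd h hzE
    have hzY : z ∈ Y0 := by
      by_contra h
      exact hz ⟨hzV0, h⟩
    have h1 : ¬ G.Adj x g := fun h => hx.2 ⟨hx.1, g, hg, h⟩
    have h2 : ¬ G.Adj x g' := fun h => hx.2 ⟨hx.1, g', hg', h⟩
    rcases hclaw z x g g' hxz.symm (hYE z hzY g hg) (hYE z hzY g' hg')
      (fun e => hEV0 g hg (e ▸ hx.1)) (fun e => hEV0 g' hg' (e ▸ hx.1)) hgg' with h | h | h
    · exact h1 h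
    · exact h2 h
    · exact hnadj h
  obtain ⟨i, hi⟩ := hg
  obtain ⟨j, hj⟩ := hg'
  refine ⟨⟨i, g, hi, j, g', hj, hgg', hnadj⟩, ?_, ?_⟩
  · intro x hx y hy hxy
    exact hYclq x (hall x hx) y (hall y hy) hxy
  · intro y hy k m hm
    exact hYE y (hall y hy) m ⟨k, hm⟩

end Pool.Agent.Helper37.SV
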