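import Pool.Agent.Helper2.SV.GoalsP

/-!
# Project SV, packet FIN: from `PW` to the definitions of the problem
-/

set_option autoImplicit false

namespace Pool.Agent.Helper37.SV

open Pool.Agent.Helper2.SV

variable {V : Type}

/-- A fork-free graph satisfies the elementary condition `ForkF`. -/
lemma forkF_of_forkFree {G : SimpleGraph V} (h : ForkFree G) : ForkF G := by
  intro v a b c d hva hvb hvc hcd hab hac hbc hdv
  by_contra hcon
  push Not at hcon
  obtain ⟨nab, nac, nbc, nvd, nad, nbd⟩ := hcon
  have hva' := hva.ne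
  have hvb' := hvb.ne
  have hvc' := hvc.ne
  have hcd' := hcd.ne
  have hda : a ≠ d := by
    rintro rfl
    exact nac hcd.symm
  have hdb : b ≠ d := by
    rintro rfl
    exact nbc hcd.symm
  have nba : ¬ G.Adj b a := fun h => nab h.symm
  have nca : ¬ G.Adj c a := fun h => nac h.symm
  have ncb : ¬ G.Adj c b := fun h => nbc h.symm
  have ndv : ¬ G.Adj d v := fun h => nvd h.symm
  have nda : ¬ G.Adj d a := fun h => nad h.symm
  have ndb : ¬ G.Adj d b := fun h => nbd h.symm
  apply h
  refine ⟨⟨⟨![v, a, b, c, d], ?_⟩, ?_⟩⟩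
  · intro i j hij
    fin_cases i <;> fin_cases j <;>
      simp_all [Matrix.cons_val_zero, Matrix.cons_val_one]
  · intro i j
    change G.Adj (![v, a, b, c, d] i) (![v, a, b, c, d] j) ↔ fork.Adj i j
    fin_cases i <;> fin_cases j <;>
      simp [fork, hva, hvb, hvc, hcd, nab, nac, nbc, nvd, nad, nbd, nba, nca, ncb, ndv, nda, ndb,
        hva.symm, hvb.symm, hvc.symm, hcd.symm]

/-- A set which is perfect in the elementary sense induces a perfect graph. -/
lemma perfectOn_of_perf [Finite V] {G : SimpleGraph V} {A : Set V} (h : Perf G A) :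
    PerfectOn G A := by
  classical
  intro X hX
  set n := (G.induce X).cliqueNum with hn
  have hOm : OmLe G X n := by
    intro K hKX hK
    have hcl : (G.induce X).IsClique (↑(K.subtype (· ∈ X)) : Set ↥X) := by
      intro x hx y hy hxy
      rw [Finset.mem_coe, Finset.mem_subtype] at hx hy
      exact hK x.1 hx y.1 hy (fun e => hxy (Subtype.ext e))
    have h1 := hcl.card_le_cliqueNum
    have h2 : (K.subtype (· ∈ X)).card = K.card := by
      rw [Finset.card_subtype, Finset.filter_true_of_mem]
      intro x hx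
      exact hKX hx
    rw [← h2]
    exact h1
  obtain ⟨f, hf1, hf2⟩ := h X hX n hOm
  have hcol : (G.induce X).Colorable n := by
    refine ⟨SimpleGraph.Coloring.mk (fun x : ↥X => (⟨f x.1, hf1 x.1 x.2⟩ : Fin n)) ?_⟩
    intro x y hxy e
    exact hf2 x.1 x.2 y.1 y.2 hxy (congrArg Fin.val e)
  exact le_antisymm hcol.chromaticNumber_le SimpleGraph.cliqueNum_le_chromaticNumber

theorem goalFIN : G_FIN := by
  classical
  intro hPW V _ G hG X hX
  obtain ⟨A, hAX, hA, hgood⟩ := hPW V G X (forkF_of_forkFree hG) (fun _ => 1)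
  refine ⟨A, X \ A, Set.union_sdiff_cancel hAX, Set.disjoint_sdiff_right, perfectOn_of_perf hA, ?_⟩
  by_contra hlt
  push Not at hlt
  obtain ⟨s, hs⟩ := (G.induce (X \ A)).exists_isNClique_cliqueNum
  set K : Finset V := s.map ⟨Subtype.val, Subtype.val_injective⟩ with hK
  have hKsub : (↑K : Set V) ⊆ X \ A := by
    intro x hx
    simp only [hK, Finset.coe_map, Function.Embedding.coeFn_mk, Set.mem_image] at hx
    obtain ⟨y, -, rfl⟩ := hx
    exact y.2
  have hKclq : Clq G ↑K := by
    intro x hx y hy hxy
    simp only [hK, Finset.coe_map, Function.Embedding.coeFn_mk, Set.mem_image] at hx hy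
    obtain ⟨x', hx', rfl⟩ := hx
    obtain ⟨y', hy', rfl⟩ := hy
    exact hs.isClique hx' hy' (fun e => hxy (congrArg Subtype.val e))
  have hKcard : K.card = (G.induce (X \ A)).cliqueNum := by
    rw [hK, Finset.card_map, hs.card_eq]
  have hmax : ∀ L : Finset V, (↑L : Set V) ⊆ X → Clq G ↑L → L.card ≤ K.card := by
    intro L hLX hL
    have hcl : (G.induce X).IsClique (↑(L.subtype (· ∈ X)) : Set ↥X) := by
      intro x hx y hy hxy
      rw [Finset.mem_coe, Finset.mem_subtype] at hx hy
      exact hL x.1 hx y.1 hy (fun e => hxy (Subtype.ext e))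
    have h1 := hcl.card_le_cliqueNum
    have h2 : (L.subtype (· ∈ X)).card = L.card := by
      rw [Finset.card_subtype, Finset.filter_true_of_mem]
      intro x hx
      exact hLX hx
    rw [h2] at h1
    omega
  have htight : Tight G (fun _ => 1) X K := by
    refine ⟨hKsub.trans Set.sdiff_subset, hKclq, ?_⟩
    intro L hLX hL
    simpa using hmax L hLX hL
  have hpos : 0 < ∑ x ∈ K, (fun _ => 1 : V → ℕ) x := by
    obtain ⟨x, hx⟩ := hX
    have h1 := hmax {x} (by simpa using hx) (by simpa using clq_singleton G x)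
    simp only [Finset.card_singleton] at h1
    simpa using h1
  obtain ⟨x, hxK, hxA⟩ := hgood K htight hpos
  exact (hKsub hxK).2 hxA

end Pool.Agent.Helper37.SV
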